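import Pool.Agent.W54.CL.Stm

set_option autoImplicit false

/-! # Cramer's rule with bounded degree (part DET of project CL) -/

namespace Pool.Agent.W227.CL.Det

open Pool.Agent.W54.CL Matrix

theorem prod_mem_pow {R A : Type} [CommSemiring R] [CommSemiring A] [Algebra R A]
    (W : Submodule R A) {ι : Type} (s : Finset ι) (x : ι → A) (hx : ∀ i ∈ s, x i ∈ W) :
    ∏ i ∈ s, x i ∈ W ^ s.card := by
  classical
  induction s using Finset.induction_on with
  | empty =>
    rw [Finset.prod_empty, Finset.card_empty, pow_zero]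
    exact Submodule.mem_one.2 ⟨1, map_one _⟩
  | insert a s ha ih =>
    rw [Finset.prod_insert ha, Finset.card_insert_of_notMem ha, pow_succ']
    exact Submodule.mul_mem_mul (hx a (Finset.mem_insert_self a s))
      (ih fun i hi => hx i (Finset.mem_insert_of_mem hi))

theorem det_mem {ι : Type} [Fintype ι] [DecidableEq ι]
    (W : Submodule (algebraicClosure ℚ ℂ) ℂ) (M : Matrix ι ι ℝ)
    (hM : ∀ i j, ((M i j : ℝ) : ℂ) ∈ W ^ 2) :
    ((M.det : ℝ) : ℂ) ∈ W ^ (2 * Fintype.card ι) := by
  rw [Matrix.det_apply, Complex.ofReal_sum]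
  refine Submodule.sum_mem _ fun σ _ => ?_
  have h1 : ((∏ i, M (σ i) i : ℝ) : ℂ) ∈ W ^ (2 * Fintype.card ι) := by
    rw [Complex.ofReal_prod, pow_mul]
    exact prod_mem_pow (W ^ 2) Finset.univ (fun i => ((M (σ i) i : ℝ) : ℂ)) fun i _ => hM _ _
  rcases Int.units_eq_one_or (Equiv.Perm.sign σ) with h | h
  · rw [h, one_smul]
    exact h1
  · rw [h, Units.neg_smul, one_smul, Complex.ofReal_neg]
    exact Submodule.neg_mem _ h1

theorem main : StDet := by
  intro ι I _ _ W _ y hy hW
  classical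
  set G : Matrix ι ι ℝ := Matrix.of fun i j => ∑ k, y i k * y j k with hG
  have hmul : ∀ c : ι → ℝ, ∀ i, (G *ᵥ c) i = ∑ k, y i k * ∑ j, c j * y j k := by
    intro c i
    simp only [Matrix.mulVec, dotProduct, hG, Matrix.of_apply, Finset.sum_mul, Finset.mul_sum]
    rw [Finset.sum_comm]
    refine Finset.sum_congr rfl fun k _ => Finset.sum_congr rfl fun j _ => by ring
  have hGW : ∀ i j, ((G i j : ℝ) : ℂ) ∈ W ^ 2 := by
    intro i j
    rw [hG, Matrix.of_apply, Complex.ofReal_sum]
    refine Submodule.sum_mem _ fun k _ => ?_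
    rw [Complex.ofReal_mul, pow_two]
    exact Submodule.mul_mem_mul (hW i k) (hW j k)
  have hdet : G.det ≠ 0 := by
    intro h0
    obtain ⟨v, hv, hv0⟩ := Matrix.exists_mulVec_eq_zero_iff.2 h0
    apply hv
    have h1 : ∑ i, v i * (G *ᵥ v) i = ∑ k, (∑ j, v j * y j k) ^ 2 := by
      simp only [hmul]
      simp_rw [Finset.mul_sum]
      rw [Finset.sum_comm]
      refine Finset.sum_congr rfl fun k _ => ?_
      rw [pow_two, Finset.sum_mul]
      refine Finset.sum_congr rfl fun i _ => ?_
      rw [← Finset.mul_sum, ← Finset.mul_sum]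
      ring
    have h2 : ∑ k, (∑ j, v j * y j k) ^ 2 = 0 := by
      rw [← h1, hv0]
      simp
    have h3 : ∀ k, ∑ j, v j * y j k = 0 := by
      intro k
      have := (Finset.sum_eq_zero_iff_of_nonneg (fun k _ => sq_nonneg _)).1 h2 k (Finset.mem_univ k)
      exact pow_eq_zero_iff (two_ne_zero) |>.1 this
    have h4 : ∑ j, v j • y j = 0 := by
      funext k
      rw [Finset.sum_apply]
      simpa using h3 k
    funext j
    exact (Fintype.linearIndependent_iff.1 hy) v h4 j
  refine ⟨G.det, hdet, det_mem W G hGW, fun c hc i => ?_⟩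
  have hb : ∀ j, (((G *ᵥ c) j : ℝ) : ℂ) ∈ W ^ 2 := by
    intro j
    rw [hmul, Complex.ofReal_sum]
    refine Submodule.sum_mem _ fun k _ => ?_
    rw [Complex.ofReal_mul, pow_two]
    exact Submodule.mul_mem_mul (hW j k) (hc k)
  have hcr : G.det * c i = (G.updateCol i (G *ᵥ c)).det := by
    have h1 : Matrix.cramer G (G *ᵥ c) = G.det • c := by
      rw [Matrix.cramer_eq_adjugate_mulVec, Matrix.mulVec_mulVec, Matrix.adjugate_mul,
        Matrix.smul_mulVec, Matrix.one_mulVec]
    have h2 := congrFun h1 i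
    rw [Matrix.cramer_apply] at h2
    rw [h2]
    rfl
  rw [hcr]
  refine det_mem W _ fun a b => ?_
  rw [Matrix.updateCol_apply]
  split_ifs
  · exact hb a
  · exact hGW a b

end Pool.Agent.W227.CL.Det

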